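import Pool.Agent.Q180.WD.Conv

/-!
# The Hausdorff dimension of the exceptions to the weighted level of distribution

For every level `α < 1` the weighted bound of the question, with the maxima over the real lengths `2 ≤ y ≤ N` and
over the residues in `F(d, ⌊ξ d⌋)` inside the sum over the moduli, can fail only for a set of real numbers `ξ` of
small Hausdorff dimension. For instance, if `F(d, t) = {t}`, the residues are the integers `⌊ξ d⌋`.

The bound without weights, for integer lengths and with `π(y)` in place of `li(y)`, is from the starting files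
(`Pool.Agent.Y856.dim_main`).
-/

set_option autoImplicit false

namespace Pool.Agent.Results.MP_188a10_nt.MetricDimension

open Finset

/-- `π(y; d, a)`: the number of primes `p ≤ y` with `p ≡ a (mod d)` -/
noncomputable def primesAP (y : ℝ) (d : ℕ) (a : ℤ) : ℕ :=
  ((Icc 1 ⌊y⌋₊).filter (fun p : ℕ => p.Prime ∧ (p : ℤ) ≡ a [ZMOD d])).card

/-- `li(y) = ∫_2^y dt / log t` -/
noncomputable def li (y : ℝ) : ℝ := ∫ t in (2 : ℝ)..y, 1 / Real.log t

/-- the maximum over real `y`, `2 ≤ y ≤ N`, of `|π(y; d, a) - li(y)/φ(d)|` -/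
noncomputable def EMax (N d : ℕ) (a : ℤ) : ℝ :=
  ⨆ y : Set.Icc (2 : ℝ) N, |(primesAP y d a : ℝ) - li y / (Nat.totient d : ℝ)|

/-- `ν(d)`: the number of distinct prime factors of `d` -/
def nuD (d : ℕ) : ℕ := d.primeFactors.card

/-- The weighted bound at the level `α` with the residues modulo `d` restricted to the set `T(d)`: for all `κ ≥ 1` and
all `U`, if `N` is large then for every choice of residues `a(d)` the sum over the `d ≤ N^α` with `a(d) ∈ T(d)` and
`(a(d), d) = 1` of `κ^ν(d) max_{2 ≤ y ≤ N} |π(y; d, a(d)) - li(y)/φ(d)|` is at most `N / (log N)^U`. (Thus the maximum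
over the residues in `T(d)` prime to `d` stands inside the sum over `d`.) -/
def WeightedBound (α : ℝ) (T : ℕ → Finset ℤ) : Prop :=
  ∀ κ : ℝ, 1 ≤ κ → ∀ U : ℕ, ∃ N₀ : ℕ, ∀ N : ℕ, N₀ ≤ N → ∀ a : ℕ → ℤ,
    ∑ d ∈ (Icc 1 ⌊(N : ℝ) ^ α⌋₊).filter (fun d => a d ∈ T d ∧ Int.gcd (a d) d = 1),
      κ ^ nuD d * EMax N d (a d) ≤ N / Real.log N ^ U

lemma bound_of {θ : ℝ} (hθ : θ < 1) {T : ℕ → Finset ℤ} (h : Pool.Agent.Y856.EHP θ T) : WeightedBound θ T := by
  intro κ hκ U
  obtain ⟨N₀, h0⟩ := Pool.Agent.Q180.WD.weighted_EHP hθ h κ hκ U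
  refine ⟨N₀, fun N hN a => le_trans (le_of_eq ?_) (h0 N hN a)⟩
  apply sum_congr rfl
  intro d hd
  rw [mem_filter, mem_Icc] at hd
  have h1 : EMax N d (a d) = Pool.Agent.H300R2.WEH.errMax N d (a d % d).toNat :=
    Pool.Agent.Q180.WD.errMax_int N d (a d) hd.1.1
  rw [h1]
  rfl

/-- **The dimension of the exceptional set.** Let `0 < α < 1` and `β ≥ 0`. For every modulus `d` and every integer `t`
let `F(d, t)` be an arbitrary finite set of integers, such that among every `d` consecutive integers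
`m d ≤ t < (m + 1) d` at most `C d ^ β` have the property that `F(d, t)` represents a given class `l` modulo `d`.
(Examples: `F(d, t) = {c(d) + t}` with `β = 0`, or all the integers at distance at most `d ^ β` from `c(d) + t`.)

Then the real numbers `ξ` for which the weighted bound at the level `α` over the residues in `F(d, ⌊ξ d⌋)` fails form a
set of Hausdorff dimension at most `max(0, 2 + β - 1/α)`. (In particular it holds for almost all `ξ` if
`α < 1 / (1 + β)`, so for all `α < 1` if `β = 0`.) -/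
theorem result (α C β : ℝ) (hα0 : 0 < α) (hα1 : α < 1) (hβ : 0 ≤ β) (F : ℕ → ℤ → Finset ℤ)
    (hF : ∀ d : ℕ, 1 ≤ d → ∀ m l : ℤ, (((Ico (m * d) ((m + 1) * d)).filter
      (fun t => ∃ a ∈ F d t, a ≡ l [ZMOD d])).card : ℝ) ≤ C * (d : ℝ) ^ β) :
    dimH {ξ : ℝ | ¬ WeightedBound α (fun d => F d ⌊ξ * d⌋)} ≤ ENNReal.ofReal (2 + β - 1 / α) := by
  refine le_trans (dimH_mono ?_) (Pool.Agent.Y856.dim_main α C β hα0 hα1 hβ F hF)
  intro ξ hξ h
  exact hξ (bound_of hα1 h)

end Pool.Agent.Results.MP_188a10_nt.MetricDimension
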