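import Pool.Agent.Q180.WD.Conv

/-!
# Weighted level of distribution for random residue classes

For every modulus `d` a random finite set `T(d)` of residues is drawn; nothing is assumed about the dependence
between different moduli. The weighted bound of the question, with the maxima over the residues of `T(d)` and over
the real lengths `2 ≤ y ≤ N` inside the sum over the moduli, holds almost surely at levels beyond one half.

The bound without weights, for integer lengths and with `π(y)` in place of `li(y)`, is from the starting files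
(`Pool.Agent.Y856.prob_main`).
-/

set_option autoImplicit false

namespace Pool.Agent.Results.MP_188a10_nt.RandomClasses

open Finset MeasureTheory

/-- `π(y; d, a)`: the number of primes `p ≤ y` with `p ≡ a (mod d)` -/
noncomputable def primesAP (y : ℝ) (d : ℕ) (a : ℤ) : ℕ :=
  ((Icc 1 ⌊y⌋₊).filter (fun p : ℕ => p.Prime ∧ (p : ℤ) ≡ a [ZMOD d])).card

/-- `li(y) = ∫_2^y dt / log t` -/
noncomputable def li (y : ℝ) : ℝ := ∫ t in (2 : ℝ)..y, 1 / Real.log t

/-- the maximum over real `y`, `2 ≤ y ≤ N`, of `|π(y; d, a) - li(y)/φ(d)|` -/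
noncomputable def EMax (N d : ℕ) (a : ℤ) : ℝ :=
  ⨆ y : Set.Icc (2 : ℝ) N, |(primesAP y d a : ℝ) - li y / (Nat.totient d : ℝ)|

/-- `ν(d)`: the number of distinct prime factors of `d` -/
def nuD (d : ℕ) : ℕ := d.primeFactors.card

/-- The weighted bound at the level `α` with the residues modulo `d` restricted to the set `T(d)`: for all `κ ≥ 1` and
all `U`, if `N` is large then for every choice of residues `a(d)` the sum over the `d ≤ N^α` with `a(d) ∈ T(d)` and
`(a(d), d) = 1` of `κ^ν(d) max_{2 ≤ y ≤ N} |π(y; d, a(d)) - li(y)/φ(d)|` is at most `N / (log N)^U`. (Thus the maximum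
over the residues in `T(d)` prime to `d` stands inside the sum over `d`.) -/
def WeightedBound (α : ℝ) (T : ℕ → Finset ℤ) : Prop :=
  ∀ κ : ℝ, 1 ≤ κ → ∀ U : ℕ, ∃ N₀ : ℕ, ∀ N : ℕ, N₀ ≤ N → ∀ a : ℕ → ℤ,
    ∑ d ∈ (Icc 1 ⌊(N : ℝ) ^ α⌋₊).filter (fun d => a d ∈ T d ∧ Int.gcd (a d) d = 1),
      κ ^ nuD d * EMax N d (a d) ≤ N / Real.log N ^ U

/-- The event that the class `l` modulo `d` is represented in the random set `T(d)`. -/
def Represented {Ω : Type} (T : ℕ → Ω → Finset ℤ) (d : ℕ) (l : ℤ) : Set Ω :=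
  {ω | ∃ b ∈ T d ω, b ≡ l [ZMOD d]}

/-- A smaller level follows from a larger one. -/
lemma WeightedBound.mono {α α' : ℝ} {T : ℕ → Finset ℤ} (h : WeightedBound α' T) (hα : α ≤ α') :
    WeightedBound α T := by
  intro κ hκ U
  obtain ⟨N₀, h0⟩ := h κ hκ U
  refine ⟨max N₀ 1, fun N hN a => le_trans ?_ (h0 N ((le_max_left _ _).trans hN) a)⟩
  have hN1 : 1 ≤ N := (le_max_right _ _).trans hN
  apply Finset.sum_le_sum_of_subset_of_nonneg
  · intro d hd
    rw [mem_filter, mem_Icc] at hd ⊢
    refine ⟨⟨hd.1.1, hd.1.2.trans ?_⟩, hd.2⟩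
    apply Nat.floor_le_floor
    apply Real.rpow_le_rpow_of_exponent_le _ hα
    exact_mod_cast hN1
  · intro d _ _
    have h1 : 0 ≤ EMax N d (a d) := Real.iSup_nonneg fun y => abs_nonneg _
    positivity

lemma bound_of {θ : ℝ} (hθ : θ < 1) {T : ℕ → Finset ℤ} (h : Pool.Agent.Y856.EHP θ T) : WeightedBound θ T := by
  intro κ hκ U
  obtain ⟨N₀, h0⟩ := Pool.Agent.Q180.WD.weighted_EHP hθ h κ hκ U
  refine ⟨N₀, fun N hN a => le_trans (le_of_eq ?_) (h0 N hN a)⟩
  apply sum_congr rfl
  intro d hd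
  rw [mem_filter, mem_Icc] at hd
  have h1 : EMax N d (a d) = Pool.Agent.H300R2.WEH.errMax N d (a d % d).toNat :=
    Pool.Agent.Q180.WD.errMax_int N d (a d) hd.1.1
  rw [h1]
  rfl

/-- **Weighted level of distribution for random residue classes.**

(1) Let `T(d)`, `d ≥ 1`, be random finite sets of integers on one probability space, with an arbitrary dependence
between different moduli and between the members of one set, such that for every modulus `d` and every class `l` the
probability that `T(d)` represents `l` modulo `d` is at most `C d ^ (-s)`, where `s ≤ 1`. If `α (2 - s) < 1` then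
almost surely the weighted bound holds at the level `α` over the residues in the sets `T(d)`.

(2) Let `c(d)`, `d ≥ 1`, be random integers on one probability space, such that for every `ε > 0` the probability of
`c(d) ≡ l (mod d)` is at most `C(ε) d ^ (-1 + ε)` for all `d` and `l`. (For example `c(d)` is uniformly distributed
over the classes prime to `d`.) Then almost surely the weighted bound holds for the residues `c(d)` at ALL levels
`α < 1`. -/
theorem result :
    (∀ (Ω : Type) [MeasurableSpace Ω] (μ : Measure Ω) [IsProbabilityMeasure μ]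
      (T : ℕ → Ω → Finset ℤ) (s C α : ℝ), s ≤ 1 →
      (∀ d : ℕ, 1 ≤ d → ∀ l : ℤ, MeasurableSet (Represented T d l)) →
      (∀ d : ℕ, 1 ≤ d → ∀ l : ℤ, μ.real (Represented T d l) ≤ C * (d : ℝ) ^ (-s)) →
      α * (2 - s) < 1 → ∀ᵐ ω ∂μ, WeightedBound α (fun d => T d ω)) ∧
    (∀ (Ω : Type) [MeasurableSpace Ω] (μ : Measure Ω) [IsProbabilityMeasure μ]
      (c : ℕ → Ω → ℤ), (∀ d : ℕ, Measurable (c d)) →
      (∀ ε : ℝ, 0 < ε → ∃ C : ℝ, ∀ d : ℕ, 1 ≤ d → ∀ l : ℤ,
        μ.real {ω | c d ω ≡ l [ZMOD d]} ≤ C * (d : ℝ) ^ (-1 + ε)) →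
      ∀ᵐ ω ∂μ, ∀ α : ℝ, α < 1 → WeightedBound α (fun d => {c d ω})) := by
  have h1 : ∀ (Ω : Type) [MeasurableSpace Ω] (μ : Measure Ω) [IsProbabilityMeasure μ]
      (T : ℕ → Ω → Finset ℤ) (s C α : ℝ), s ≤ 1 →
      (∀ d : ℕ, 1 ≤ d → ∀ l : ℤ, MeasurableSet (Represented T d l)) →
      (∀ d : ℕ, 1 ≤ d → ∀ l : ℤ, μ.real (Represented T d l) ≤ C * (d : ℝ) ^ (-s)) →
      α * (2 - s) < 1 → ∀ᵐ ω ∂μ, WeightedBound α (fun d => T d ω) := by
    intro Ω _ μ _ T s C α hs hT hlaw h
    have hα : α < 1 := by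
      by_contra hcon
      push Not at hcon
      nlinarith
    filter_upwards [Pool.Agent.Y856.prob_main μ T s C α hs hT hlaw h] with ω hω
    exact bound_of hα hω
  refine ⟨h1, ?_⟩
  intro Ω _ μ _ c hc hlaw
  have hrep : ∀ (d : ℕ) (l : ℤ), Represented (fun d ω => {c d ω}) d l = {ω | c d ω ≡ l [ZMOD d]} := by
    intro d l
    ext ω
    simp [Represented]
  have key : ∀ n : ℕ, ∀ᵐ ω ∂μ, WeightedBound (1 - 1 / ((n : ℝ) + 2)) (fun d => {c d ω}) := by
    intro n
    have hn : (0 : ℝ) < (n : ℝ) + 2 := by positivity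
    obtain ⟨C, hC⟩ := hlaw (1 / ((n : ℝ) + 2)) (by positivity)
    refine h1 Ω μ (fun d ω => {c d ω}) (1 - 1 / ((n : ℝ) + 2)) C _ (by
      have : (0 : ℝ) < 1 / ((n : ℝ) + 2) := by positivity
      linarith) ?_ ?_ ?_
    · intro d hd l
      rw [hrep]
      have : {ω | c d ω ≡ l [ZMOD d]} = (c d) ⁻¹' {b : ℤ | b ≡ l [ZMOD d]} := rfl
      rw [this]
      exact hc d (MeasurableSet.of_discrete)
    · intro d hd l
      rw [hrep]
      refine (hC d hd l).trans (le_of_eq ?_)
      congr 2
      ring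
    · have h2 : (0 : ℝ) < 1 / ((n : ℝ) + 2) := by positivity
      nlinarith
  rw [← ae_all_iff] at key
  filter_upwards [key] with ω hω α hα
  obtain ⟨n, hn⟩ := exists_nat_gt (1 / (1 - α))
  refine (hω n).mono ?_
  have h3 : 0 < 1 - α := by linarith
  have h4 : 1 / ((n : ℝ) + 2) ≤ 1 - α := by
    rw [div_le_iff₀ (by positivity)]
    have h5 : 1 < n * (1 - α) := by
      rw [div_lt_iff₀ h3] at hn
      exact hn
    nlinarith
  linarith

end Pool.Agent.Results.MP_188a10_nt.RandomClasses
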