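import Pool.Agent.Q180.WD.Sep

/-!
# Weighted level of distribution for separated residue systems, at every level below `N / (log N) ^ B`

The maximum over the residues inside the sum of the question is the maximum over all residue systems `c` (a residue
`c(d)` prime to `d` for every modulus `d`). We show: in every family of residue systems any two of which coincide
modulo few `d ≤ Q` only, all but at most `(Q ^ 2 / N) (log N) ^ B` members satisfy the weighted bound, with the maximum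
over the real lengths `y ≤ N` inside the sum over `d`. For `Q = N ^ α` this is `N ^ (2 α - 1) (log N) ^ B` exceptions; for
`Q < √N / (log N) ^ (B/2)` there are none, which is the theorem of Bombieri with the weights of the question.

The bound without weights, for one integer length and with `π(N)` in place of `li`, is from the starting files
(`Pool.Agent.Y882.EHF.few`).
-/

set_option autoImplicit false

namespace Pool.Agent.Results.MP_188a10_nt.SeparatedResidueSystems

open Finset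

/-- `π(y; d, l)`: the number of primes `p ≤ y` with `p ≡ l (mod d)` -/
noncomputable def primesAP (y : ℝ) (d l : ℕ) : ℕ :=
  ((Icc 1 ⌊y⌋₊).filter (fun p => p.Prime ∧ p ≡ l [MOD d])).card

/-- `li(y) = ∫_2^y dt / log t` -/
noncomputable def li (y : ℝ) : ℝ := ∫ t in (2 : ℝ)..y, 1 / Real.log t

/-- the maximum over real `y`, `2 ≤ y ≤ N`, of `|π(y; d, l) - li(y)/φ(d)|` -/
noncomputable def EMax (N d l : ℕ) : ℝ :=
  ⨆ y : Set.Icc (2 : ℝ) N, |(primesAP y d l : ℝ) - li y / (Nat.totient d : ℝ)|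

/-- `ν(d)`: the number of distinct prime factors of `d` -/
def nuD (d : ℕ) : ℕ := d.primeFactors.card

/-- The sum of `κ^ν(d) max_{2 ≤ y ≤ N} |π(y; d, c(d)) - li(y)/φ(d)|` over the moduli `1 ≤ d ≤ Q` for which `c(d)` is
prime to `d`. -/
noncomputable def weightedTotal (κ : ℝ) (N Q : ℕ) (c : ℕ → ℕ) : ℝ :=
  ∑ d ∈ (Icc 1 Q).filter (fun d => (c d).Coprime d), κ ^ nuD d * EMax N d (c d)

/-- The number of the moduli `1 ≤ d ≤ Q` with `c(d) ≡ c'(d) (mod d)`. -/
def coincidences (c c' : ℕ → ℕ) (Q : ℕ) : ℕ := ((Icc 1 Q).filter (fun d => c d ≡ c' d [MOD d])).card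

/-- Let `κ ≥ 1` and `U` be fixed.

* If any two of the residue systems `c i`, `i ∈ I`, coincide modulo at most `N / (Q (log N) ^ B)` of the `d ≤ Q`, where
  `Q ≤ N / (log N) ^ B`, and if all of them violate the weighted bound `N / (log N) ^ U`, then
  `|I| ≤ (Q ^ 2 / N) (log N) ^ B`.
* The same bound holds for the number of the `a ≤ N ^ D` for which the system `d ↦ a u(d) + v(d)` violates the weighted
  bound, `Q ≤ N ^ (1 - ε)`, where `u` and `v` are arbitrary functions with `u(d)` prime to `d`. -/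
theorem result (κ : ℝ) (hκ : 1 ≤ κ) (U : ℕ) :
    (∃ B N₀ : ℕ, ∀ N : ℕ, N₀ ≤ N → ∀ Q : ℕ, (Q : ℝ) * Real.log N ^ B ≤ N →
      ∀ (ι : Type) (I : Finset ι) (c : ι → ℕ → ℕ),
        (∀ i ∈ I, ∀ j ∈ I, i ≠ j → (coincidences (c i) (c j) Q : ℝ) * (Q * Real.log N ^ B) ≤ N) →
        (∀ i ∈ I, N / Real.log N ^ U < weightedTotal κ N Q (c i)) →
        (I.card : ℝ) ≤ (Q : ℝ) ^ 2 / N * Real.log N ^ B) ∧
    (∀ ε D : ℝ, 0 < ε → 0 ≤ D → ∃ B N₀ : ℕ, ∀ N : ℕ, N₀ ≤ N → ∀ Q : ℕ, (Q : ℝ) ≤ (N : ℝ) ^ (1 - ε) →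
      ∀ u v : ℕ → ℕ, (∀ d, 1 ≤ d → (u d).Coprime d) →
      ∀ A : Finset ℕ, (∀ a ∈ A, (a : ℝ) ≤ (N : ℝ) ^ D ∧
        N / Real.log N ^ U < weightedTotal κ N Q (fun d => a * u d + v d)) →
        (A.card : ℝ) ≤ (Q : ℝ) ^ 2 / N * Real.log N ^ B) :=
  ⟨Pool.Agent.Q180.WD.sep_few κ hκ U, fun ε D hε hD => Pool.Agent.Q180.WD.sep_affine κ hκ U ε D hε hD⟩

end Pool.Agent.Results.MP_188a10_nt.SeparatedResidueSystems
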