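import Pool.Agent.TH212.EH.A6
import Pool.Agent.Q180.WD.Near

/-!
# Weighted level of distribution for the residues in windows around the members of a real sequence

The residues are all the integers at a distance of at most `log ^ A N` from `r m`, `m ≤ x`, where `r 1, ..., r x` is
an arbitrary family of real numbers of nearly minimal energy; for instance the values `β + α f m` of a polynomial
`f`, with arbitrary real `α ≠ 0` and `β`, or of a generalised polynomial `f t = ∑ a_y t ^ y` whose largest exponent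
is greater than `1` and not an integer (`f t = t ^ c`: the sequences of Piatetski-Shapiro). The coefficients may be
as large as a power of the divisor function, as in the question (`3 ^ ν(d) ≤ τ(d) ^ 2`).

From Mathlib: `ArithmeticFunction.vonMangoldt`: the function `Λ`; `Nat.totient`: Euler's function;
`Polynomial ℤ`, `f.eval m`: polynomials and their values. The passage from the energy to the level of distribution
is `Pool.Agent.TH212.EH`, the energies of the sequences are from `Pool.Agent.Q56.TF`.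
-/

set_option autoImplicit false

namespace Pool.Agent.Results.MP_188a10_nt.WindowsAroundRealSequences

open Finset

open Classical in
/-- The energy of order `p` of the family of real numbers `r 1, ..., r x`: the number of the pairs `v`, `w` of
`p`-tuples of elements of `{1, ..., x}` such that `r (v 1) + ... + r (v p)` and `r (w 1) + ... + r (w p)` differ
by at most `1`. -/
noncomputable def energy (p x : ℕ) (r : ℕ → ℝ) : ℕ :=
  (((Fintype.piFinset fun _ : Fin p => Icc 1 x) ×ˢ (Fintype.piFinset fun _ : Fin p => Icc 1 x)).filter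
    (fun q => |∑ i, r (q.1 i) - ∑ i, r (q.2 i)| ≤ 1)).card

/-- `E(y; d, a) = ψ(y; d, a) - y / φ(d)`, where `ψ(y; d, a)` is the sum of `Λ(n)` over the `n ≤ y` with
`n ≡ a (mod d)`. -/
noncomputable def E (y d : ℕ) (a : ℤ) : ℝ :=
  ∑ n ∈ (Icc 1 y).filter (fun n : ℕ => (n : ℤ) ≡ a [ZMOD d]), ArithmeticFunction.vonMangoldt n - (y : ℝ) / Nat.totient d

/-- `τ(d)`: the number of the divisors of `d`. In particular `τ(d) ^ 2 ≥ 3 ^ ν(d)`, where `ν(d)` is the number of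
the prime factors of `d`. -/
noncomputable def τ (d : ℕ) : ℝ := d.divisors.card

/-- `N / exp (K (log log N) ^ 2)` -/
noncomputable def level (K N : ℕ) : ℝ := N / Real.exp (K * Real.log (Real.log N) ^ 2)

/-- The sum of `λ(d) E(y(d); d, a)` over the `d ≤ Q` coprime to `a`. -/
noncomputable def weighted (lam : ℕ → ℝ) (y : ℕ → ℕ) (Q : ℕ) (a : ℤ) : ℝ :=
  ∑ d ∈ (Icc 1 Q).filter (fun d : ℕ => Int.gcd a d = 1), lam d * E (y d) d a

/-- `a` is a positive integer at a distance of at most `log ^ A N` from `t`. -/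
def Near (A N : ℕ) (t : ℝ) (a : ℤ) : Prop := 0 < a ∧ |(a : ℝ) - t| ≤ Real.log N ^ A

open Classical in
/-- The three bounds at the scale `N` for the windows around the `r m`, `m ≤ x`.

(1) For arbitrary coefficients `|λ(d)| ≤ (τ(d) log N) ^ T`, for all `m ≤ x` with at most `x / log ^ U N` exceptions ALL
positive integers `a` with `|a - r m| ≤ log ^ A N` satisfy: the sum of `λ(d) E(y; d, a)` over the `d ≤ Q` coprime to
`a` is at most `N / log ^ U N` in absolute value, for all `Q ≤ N / exp (K (log log N) ^ 2)` and all `y ≤ B N`.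

(2) The same for the sums of `λ(d) E(y(d); d, a)`, if `y(d) ≤ B N` is an arbitrary function of the modulus.

(3) For ARBITRARY integers `a(m)` with `|a(m) - r m| ≤ log ^ A N`, `|w(m)| ≤ log ^ T N` and `y(d) ≤ B N` the sum over
ALL `d ≤ N / exp (K (log log N) ^ 2)` of `τ(d) ^ T` times the ABSOLUTE VALUE of the sum of `w(m) E(y(d); d, a(m))`,
over the `m ≤ x` for which `a(m)` is positive and coprime to `d`, is at most `x N / log ^ U N`. -/
def Holds (A B T U K N x : ℕ) (r : ℕ → ℝ) : Prop :=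
  (∀ lam : ℕ → ℝ, (∀ d, |lam d| ≤ (τ d * Real.log N) ^ T) →
    (((Icc 1 x).filter (fun m => ∃ a : ℤ, Near A N (r m) a ∧ ∃ Q : ℕ, (Q : ℝ) ≤ level K N ∧ ∃ y : ℕ, y ≤ B * N ∧
      N / Real.log N ^ U < |weighted lam (fun _ => y) Q a|)).card : ℝ) ≤ x / Real.log N ^ U ∧
    ∀ y : ℕ → ℕ, (∀ d, y d ≤ B * N) →
    (((Icc 1 x).filter (fun m => ∃ a : ℤ, Near A N (r m) a ∧ ∃ Q : ℕ, (Q : ℝ) ≤ level K N ∧
      N / Real.log N ^ U < |weighted lam y Q a|)).card : ℝ) ≤ x / Real.log N ^ U) ∧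
  (∀ a : ℕ → ℤ, (∀ m ∈ Icc 1 x, |(a m : ℝ) - r m| ≤ Real.log N ^ A) → ∀ w : ℕ → ℝ, (∀ m, |w m| ≤ Real.log N ^ T) →
    ∀ y : ℕ → ℕ, (∀ d, y d ≤ B * N) →
    ∑ d ∈ Icc 1 ⌊level K N⌋₊, τ d ^ T *
      |∑ m ∈ (Icc 1 x).filter (fun m => 0 < a m ∧ Int.gcd (a m) d = 1), w m * E (y d) d (a m)| ≤
      x * N / Real.log N ^ U)

/-- The sequence `f`, of growth `x ^ c`, has the property at all large scales: for all `x` with
`N / log ^ C N ≤ x ^ c ≤ B N` and all translates `β + f m`, `|β| ≤ B N`. -/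
def Sequence (A B C T U : ℕ) (f : ℕ → ℝ) (c : ℝ) : Prop :=
  ∃ K N₀ : ℕ, ∀ N : ℕ, N₀ ≤ N → ∀ x : ℕ, (x : ℝ) ^ c ≤ B * N → (N : ℝ) ≤ Real.log N ^ C * (x : ℝ) ^ c →
    ∀ β : ℝ, |β| ≤ B * N → Holds A B T U K N x (fun m => β + f m)

lemma gcd_iff (a : ℤ) (ha : 0 < a) (q : ℕ) : Int.gcd a q = 1 ↔ a.toNat.Coprime q := by
  obtain ⟨b, rfl⟩ := Int.eq_ofNat_of_zero_le ha.le
  rw [Int.gcd_natCast_natCast, Int.toNat_natCast, Nat.coprime_iff_gcd_eq_one]

lemma E_eq (x q : ℕ) (a : ℤ) (ha : 0 < a) : E x q a =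
    Pool.Agent.W93.LV.Fu (fun n => ArithmeticFunction.vonMangoldt n) x q a.toNat - (x : ℝ) / Nat.totient q := by
  obtain ⟨b, rfl⟩ := Int.eq_ofNat_of_zero_le ha.le
  unfold E Pool.Agent.W93.LV.Fu
  rw [Int.toNat_natCast]
  congr 1
  apply sum_congr _ (fun _ _ => rfl)
  ext n
  simp only [mem_filter, Int.natCast_modEq_iff]

lemma weighted_eq (lam : ℕ → ℝ) (x : ℕ → ℕ) (Q : ℕ) (a : ℤ) (ha : 0 < a) :
    weighted lam x Q a = Pool.Agent.TH212.EH.WW lam x Q a.toNat := by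
  unfold weighted Pool.Agent.TH212.EH.WW
  simp only [gcd_iff a ha, E_eq _ _ a ha]

/-- the energy of an integral family indexed by a subtype -/
lemma En_le (p x : ℕ) (s : ℕ → ℤ) :
    Pool.Agent.TH212.EH.En p (fun i : {m : ℕ // m ∈ (Icc 1 x : Finset ℕ)} => s i.1) ≤ Pool.Agent.H373R2.T7.energy p x s := by
  classical
  unfold Pool.Agent.TH212.EH.En Pool.Agent.H373R2.T7.energy
  rw [← Nat.card_eq_finsetCard]
  apply Nat.card_le_card_of_injective (fun q => ⟨(fun j => (q.1.1 j).1, fun j => (q.1.2 j).1), by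
    rw [mem_filter, mem_product, Fintype.mem_piFinset, Fintype.mem_piFinset]
    exact ⟨⟨fun j => (q.1.1 j).2, fun j => (q.1.2 j).2⟩, q.2⟩⟩)
  intro q q' h
  simp only [Subtype.mk.injEq, Prod.mk.injEq] at h
  apply Subtype.ext
  apply Prod.ext
  · funext j
    exact Subtype.ext (congrFun h.1 j)
  · funext j
    exact Subtype.ext (congrFun h.2 j)

lemma card_le_sub (s : Finset ℕ) (P : ℕ → Prop) [DecidablePred P] (P' : {n : ℕ // n ∈ s} → Prop) [DecidablePred P']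
    (h : ∀ i : {n : ℕ // n ∈ s}, P i.1 → P' i) (t : ℝ) (ht : ((univ.filter P').card : ℝ) ≤ t) : ((s.filter P).card : ℝ) ≤ t := by
  classical
  refine le_trans ?_ ht
  apply Nat.cast_le.2
  have e : (s.filter P) ⊆ ((univ : Finset {n : ℕ // n ∈ s}).filter P').image (fun i => i.1) := by
    intro n hn
    rw [mem_filter] at hn
    rw [mem_image]
    exact ⟨⟨n, hn.1⟩, mem_filter.2 ⟨mem_univ _, h ⟨n, hn.1⟩ hn.2⟩, rfl⟩
  exact (card_le_card e).trans card_image_le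

/-- integral families -/
lemma general (p B C T U : ℕ) : ∃ K N₀ : ℕ, ∀ N : ℕ, N₀ ≤ N →
    ∀ (x : ℕ) (s : ℕ → ℤ), (∀ m ∈ Icc 1 x, |s m| ≤ B * N) →
    (Pool.Agent.H373R2.T7.energy p x s : ℝ) * N ≤ Real.log N ^ C * (x : ℝ) ^ (2 * p) →
    (∀ lam : ℕ → ℝ, (∀ d, |lam d| ≤ (τ d * Real.log N) ^ T) →
      (∀ P : ℕ → Prop, ∀ _ : DecidablePred P, (∀ m ∈ Icc 1 x, P m → 0 < s m ∧ ∃ Q : ℕ, (Q : ℝ) ≤ level K N ∧
        ∃ y : ℕ, y ≤ B * N ∧ N / Real.log N ^ U < |weighted lam (fun _ => y) Q (s m)|) →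
        (((Icc 1 x).filter P).card : ℝ) ≤ x / Real.log N ^ U) ∧
      ∀ y : ℕ → ℕ, (∀ d, y d ≤ B * N) →
      (∀ P : ℕ → Prop, ∀ _ : DecidablePred P, (∀ m ∈ Icc 1 x, P m → 0 < s m ∧ ∃ Q : ℕ, (Q : ℝ) ≤ level K N ∧
        N / Real.log N ^ U < |weighted lam y Q (s m)|) →
        (((Icc 1 x).filter P).card : ℝ) ≤ x / Real.log N ^ U)) ∧
    (∀ w : ℕ → ℝ, (∀ m, |w m| ≤ Real.log N ^ T) → ∀ y : ℕ → ℕ, (∀ d, y d ≤ B * N) →
      ∑ d ∈ Icc 1 ⌊level K N⌋₊, τ d ^ T *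
        |∑ m ∈ (Icc 1 x).filter (fun m => 0 < s m ∧ Int.gcd (s m) d = 1), w m * E (y d) d (s m)| ≤
        x * N / Real.log N ^ U) := by
  classical
  obtain ⟨K1, n1, h1⟩ := Pool.Agent.TH212.EH.few p B C T U
  obtain ⟨K2, n2, h2⟩ := Pool.Agent.TH212.EH.dual p B C T U
  refine ⟨max K1 K2, n1 + n2, fun N hN x s hs hE => ?_⟩
  have hfc : Fintype.card {m : ℕ // m ∈ (Icc 1 x : Finset ℕ)} = x := by
    rw [Fintype.card_coe, Nat.card_Icc, Nat.add_sub_cancel]
  have hv : ∀ i : {m : ℕ // m ∈ (Icc 1 x : Finset ℕ)}, |s i.1| ≤ B * N := fun i => hs i.1 i.2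
  have hE' : (Pool.Agent.TH212.EH.En p (fun i : {m : ℕ // m ∈ (Icc 1 x : Finset ℕ)} => s i.1) : ℝ) * N ≤
      Real.log N ^ C * (Fintype.card {m : ℕ // m ∈ (Icc 1 x : Finset ℕ)} : ℝ) ^ (2 * p) := by
    rw [hfc]
    refine le_trans ?_ hE
    apply mul_le_mul_of_nonneg_right _ (Nat.cast_nonneg _)
    exact_mod_cast En_le p x s
  have hlev1 : level (max K1 K2) N ≤ Pool.Agent.TH212.EH.level K1 N :=
    Pool.Agent.TH212.EH.level_anti K1 _ N (le_max_left _ _)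
  have hlev2 : level (max K1 K2) N ≤ Pool.Agent.TH212.EH.level K2 N :=
    Pool.Agent.TH212.EH.level_anti K2 _ N (le_max_right _ _)
  have hlev0 : 0 ≤ level (max K1 K2) N := by unfold level; positivity
  constructor
  · intro lam hlam
    have hlam' : ∀ q, |lam q| ≤ Real.log N ^ T * (q.divisors.card : ℝ) ^ T := by
      intro q
      refine (hlam q).trans (le_of_eq ?_)
      rw [mul_pow, mul_comm]
      rfl
    obtain ⟨k1, k2⟩ := h1 N (by omega) {m : ℕ // m ∈ (Icc 1 x : Finset ℕ)} (fun i => s i.1) hv hE' lam hlam'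
    rw [hfc] at k1
    constructor
    · intro P hP h
      refine card_le_sub (Icc 1 x) P _ ?_ _ k1
      intro i hi
      obtain ⟨h3, Q, hQ, y, hy, hbig⟩ := h i.1 i.2 hi
      refine ⟨h3, Q, hQ.trans hlev1, y, hy, ?_⟩
      rw [weighted_eq lam (fun _ => y) Q _ h3] at hbig
      exact hbig
    · intro y hy P hP h
      have k3 := k2 y hy
      rw [hfc] at k3
      refine card_le_sub (Icc 1 x) P _ ?_ _ k3
      intro i hi
      obtain ⟨h3, Q, hQ, hbig⟩ := h i.1 i.2 hi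
      refine ⟨h3, Q, hQ.trans hlev1, ?_⟩
      rw [weighted_eq lam y Q _ h3] at hbig
      exact hbig
  · intro w hw y hy
    have k3 := h2 N (by omega) {m : ℕ // m ∈ (Icc 1 x : Finset ℕ)} (fun i => s i.1) hv hE' (fun i => w i.1) (fun i => hw i.1)
      ⌊level (max K1 K2) N⌋₊ ((Nat.floor_le hlev0).trans hlev2) y hy
    rw [hfc] at k3
    rw [mul_comm (x : ℝ)]
    refine le_trans (le_of_eq ?_) k3
    apply sum_congr rfl
    intro q _
    unfold τ
    congr 2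
    have e : (Icc 1 x).filter (fun m => 0 < s m ∧ Int.gcd (s m) q = 1) =
        ((univ : Finset {m : ℕ // m ∈ (Icc 1 x : Finset ℕ)}).filter (fun i => 0 < s i.1 ∧ (s i.1).toNat.Coprime q)).image (fun i => i.1) := by
      ext n
      rw [mem_image, mem_filter]
      constructor
      · rintro ⟨h3, h4, h5⟩
        exact ⟨⟨n, h3⟩, mem_filter.2 ⟨mem_univ _, h4, (gcd_iff _ h4 q).1 h5⟩, rfl⟩
      · rintro ⟨i, h3, rfl⟩
        have h4 := (mem_filter.1 h3).2
        exact ⟨i.2, h4.1, (gcd_iff _ h4.1 q).2 h4.2⟩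
    rw [e, sum_image (by
      intro i _ j _ h
      exact Subtype.ext h)]
    apply sum_congr rfl
    intro i hi
    rw [mem_filter] at hi
    rw [E_eq _ _ _ hi.2.1]

/-- families of real numbers with nearly minimal energy -/
lemma windows (p A B C T U : ℕ) : ∃ K N₀ : ℕ, ∀ N : ℕ, N₀ ≤ N → ∀ (x : ℕ) (r : ℕ → ℝ),
    (∀ m ∈ Icc 1 x, |r m| ≤ B * N) →
    (energy p x r : ℝ) * N ≤ Real.log N ^ C * (x : ℝ) ^ (2 * p) → Holds A B T U K N x r := by
  classical
  obtain ⟨B₁, C₁, N₀, h1⟩ := Pool.Agent.Q56.TF.master_gen p A B C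
  obtain ⟨B₂, C₂, N₂, h1'⟩ := Pool.Agent.Q180.WD.near_gen p A B C
  obtain ⟨B', hB'⟩ : ∃ B' : ℕ, B' = B₁ + B₂ := ⟨_, rfl⟩
  obtain ⟨C', hC'⟩ : ∃ C' : ℕ, C' = C₁ + C₂ := ⟨_, rfl⟩
  obtain ⟨K, N₁, h2⟩ := general p (B + B') C' T U
  have hBB : ∀ N : ℕ, B * N ≤ (B + B') * N := fun N => Nat.mul_le_mul_right _ (by omega)
  refine ⟨K, N₀ + N₁ + N₂ + 3, fun N hN x r hr hE => ?_⟩
  have hlog1 : 1 ≤ Real.log N := by
    rw [Real.le_log_iff_exp_le (by exact_mod_cast (by omega : 0 < N))]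
    have : (3 : ℝ) ≤ N := by exact_mod_cast (by omega : 3 ≤ N)
    linarith [Real.exp_one_lt_d9]
  have hup : ∀ (B₀ C₀ : ℕ), B₀ ≤ B' → C₀ ≤ C' → ∀ s : ℕ → ℤ, (∀ m ∈ Icc 1 x, |s m| ≤ B₀ * (N : ℤ)) →
      (Pool.Agent.H373R2.T7.energy p x s : ℝ) * N ≤ Real.log N ^ C₀ * (x : ℝ) ^ (2 * p) →
      (∀ m ∈ Icc 1 x, |s m| ≤ ((B + B' : ℕ) : ℤ) * N) ∧
      (Pool.Agent.H373R2.T7.energy p x s : ℝ) * N ≤ Real.log N ^ C' * (x : ℝ) ^ (2 * p) := by
    intro B₀ C₀ hB₀ hC₀ s h3 h4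
    refine ⟨fun m hm => (h3 m hm).trans ?_, h4.trans ?_⟩
    · have : (B₀ : ℤ) ≤ ((B + B' : ℕ) : ℤ) := by exact_mod_cast (by omega : B₀ ≤ B + B')
      exact mul_le_mul_of_nonneg_right this (by positivity)
    · apply mul_le_mul_of_nonneg_right _ (by positivity)
      exact pow_le_pow_right₀ hlog1 hC₀
  have hgen : ∀ P : ℤ → Prop, ∃ s : ℕ → ℤ, (∀ m ∈ Icc 1 x, |s m| ≤ ((B + B' : ℕ) : ℤ) * N) ∧
      (Pool.Agent.H373R2.T7.energy p x s : ℝ) * N ≤ Real.log N ^ C' * (x : ℝ) ^ (2 * p) ∧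
      ∀ m, (∃ a : ℤ, |(a : ℝ) - r m| ≤ Real.log N ^ A ∧ P a) → P (s m) := by
    intro P
    obtain ⟨s, h3, h4, h5⟩ := h1 N (by omega) x r hr hE P
    obtain ⟨h6, h7⟩ := hup B₁ C₁ (by omega) (by omega) s h3 h4
    exact ⟨s, h6, h7, h5⟩
  refine ⟨fun lam hlam => ⟨?_, fun y hy => ?_⟩, fun a ha w hw y hy => ?_⟩
  · obtain ⟨s, h3, h4, h5⟩ := hgen (fun a => 0 < a ∧ ∃ Q : ℕ, (Q : ℝ) ≤ level K N ∧ ∃ y : ℕ, y ≤ B * N ∧
      N / Real.log N ^ U < |weighted lam (fun _ => y) Q a|)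
    refine ((h2 N (by omega) x s h3 h4).1 lam hlam).1 _ _ ?_
    rintro m - ⟨a, ⟨ha1, ha2⟩, Q, hQ, y, hy, hbig⟩
    obtain ⟨h6, Q', hQ', y', hy', hbig'⟩ := h5 m ⟨a, ha2, ha1, Q, hQ, y, hy, hbig⟩
    exact ⟨h6, Q', hQ', y', hy'.trans (hBB N), hbig'⟩
  · obtain ⟨s, h3, h4, h5⟩ := hgen (fun a => 0 < a ∧ ∃ Q : ℕ, (Q : ℝ) ≤ level K N ∧
      N / Real.log N ^ U < |weighted lam y Q a|)
    refine ((h2 N (by omega) x s h3 h4).1 lam hlam).2 y (fun d => (hy d).trans (hBB N)) _ _ ?_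
    rintro m - ⟨a, ⟨ha1, ha2⟩, Q, hQ, hbig⟩
    exact h5 m ⟨a, ha2, ha1, Q, hQ, hbig⟩
  · -- an arbitrary selection is a selection of the values of a suitable property
    obtain ⟨s, hs⟩ : ∃ s : ℕ → ℤ, s = fun m => if m ∈ Icc 1 x then a m else ⌊r m⌋ := ⟨_, rfl⟩
    have hsa : ∀ m ∈ Icc 1 x, s m = a m := fun m hm => by rw [hs]; exact if_pos hm
    have hen : (∀ m ∈ Icc 1 x, |s m| ≤ ((B + B' : ℕ) : ℤ) * N) ∧
        (Pool.Agent.H373R2.T7.energy p x s : ℝ) * N ≤ Real.log N ^ C' * (x : ℝ) ^ (2 * p) := by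
      obtain ⟨h3, h4⟩ := h1' N (by omega) x r hr hE s (fun m hm => by
        rw [hsa m hm]
        exact ha m hm)
      exact hup B₂ C₂ (by omega) (by omega) s h3 h4
    have k := (h2 N (by omega) x s hen.1 hen.2).2 w hw y (fun d => (hy d).trans (hBB N))
    refine le_trans (le_of_eq ?_) k
    apply sum_congr rfl
    intro d _
    congr 2
    have e : (Icc 1 x).filter (fun m => 0 < s m ∧ Int.gcd (s m) d = 1) =
        (Icc 1 x).filter (fun m => 0 < a m ∧ Int.gcd (a m) d = 1) := by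
      apply filter_congr
      intro m hm
      rw [hsa m hm]
    rw [e]
    apply sum_congr rfl
    intro m hm
    rw [hsa m (mem_filter.1 hm).1]

lemma sequence_of {f : ℕ → ℝ} {c : ℝ} (h : Pool.Agent.Q56.TF.Base f c) (hc : 1 ≤ c) (A B C T U : ℕ) :
    Sequence A B C T U f c := by
  classical
  obtain ⟨p, B', C', N₀, h1⟩ := Pool.Agent.Q56.TF.fam_base h hc B C
  obtain ⟨K, N₁, h2⟩ := windows p A (B + B') C' T U
  refine ⟨K, N₀ + N₁, fun N hN x hx1 hx2 β hβ => ?_⟩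
  obtain ⟨h3, h4⟩ := h1 N (by omega) x hx1 hx2 β hβ
  have hBB : B * N ≤ (B + B') * N := Nat.mul_le_mul_right _ (by omega)
  have hBB' : ((B' : ℕ) : ℝ) * N ≤ ((B + B' : ℕ) : ℝ) * N := by
    apply mul_le_mul_of_nonneg_right _ (Nat.cast_nonneg _)
    exact_mod_cast (by omega : B' ≤ B + B')
  obtain ⟨h5, h6⟩ := h2 N (by omega) x (fun m => β + f m) (fun m hm => (h3 m hm).trans hBB') h4
  refine ⟨fun lam hlam => ?_, fun a ha w hw y hy => h6 a ha w hw y (fun d => (hy d).trans hBB)⟩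
  obtain ⟨h7, h8⟩ := h5 lam hlam
  refine ⟨le_trans ?_ h7, fun y hy => h8 y (fun d => (hy d).trans hBB)⟩
  apply Nat.cast_le.2
  apply card_le_card
  intro m hm
  rw [mem_filter] at hm ⊢
  obtain ⟨hm1, a, ha, Q, hQ, y, hy, hbig⟩ := hm
  exact ⟨hm1, a, ha, Q, hQ, y, hy.trans hBB, hbig⟩

/-- Let `A`, `B`, `C`, `T`, `U` be fixed; `Holds` is defined above.

* For every `p` there is a `K` such that for all large `N` the bounds `Holds` are true for EVERY family of real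
  numbers `r 1, ..., r x` in `[-B N, B N]` with an energy of order `p` of at most `log ^ C N` times `x ^ (2 p) / N`
  (the minimal possible order of magnitude). The family may be thin: `x` may be about as small as `N ^ (1 / p)`.
* They are true for `r m = β + α f m`, `m ≤ x`, where `f` is a fixed nonconstant polynomial with integer
  coefficients, of degree `d`, `α ≠ 0` is a fixed real number, `β` is any real number with `|β| ≤ B N`, and
  `N / log ^ C N ≤ x ^ d ≤ B N`.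
* They are true for `r m = β + ∑ a_y m ^ y` (a sum over a finite set `F` of real exponents `y`), if the largest
  exponent `c` is greater than `1` and not an integer, `a_c ≠ 0`, `|β| ≤ B N` and `N / log ^ C N ≤ x ^ c ≤ B N`; for
  instance for `r m = β + m ^ c`. -/
theorem result (A B C T U : ℕ) :
    (∀ p : ℕ, ∃ K N₀ : ℕ, ∀ N : ℕ, N₀ ≤ N → ∀ (x : ℕ) (r : ℕ → ℝ), (∀ m ∈ Icc 1 x, |r m| ≤ B * N) →
      (energy p x r : ℝ) * N ≤ Real.log N ^ C * (x : ℝ) ^ (2 * p) → Holds A B T U K N x r) ∧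
    (∀ f : Polynomial ℤ, 1 ≤ f.natDegree → ∀ α : ℝ, α ≠ 0 →
      Sequence A B C T U (fun m => α * ((f.eval (m : ℤ) : ℤ) : ℝ)) f.natDegree) ∧
    (∀ (F : Finset ℝ) (a : ℝ → ℝ) (c : ℝ), c ∈ F → (∀ y ∈ F, y ≤ c) → a c ≠ 0 → 1 < c → (∀ k : ℕ, c ≠ k) →
      Sequence A B C T U (fun m => ∑ y ∈ F, a y * (m : ℝ) ^ y) c) := by
  refine ⟨fun p => windows p A B C T U, fun f hd α hα => ?_, fun F a c hcF hmax hac hc hcn => ?_⟩
  · exact sequence_of ((Pool.Agent.Q56.TF.base_poly f hd).dil hα) (by exact_mod_cast hd) A B C T U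
  · exact sequence_of (Pool.Agent.Q56.TF.base_gp F a c hcF hmax hac hc hcn) hc.le A B C T U

end Pool.Agent.Results.MP_188a10_nt.WindowsAroundRealSequences
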